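import Pool.Agent.R507.AMZ.Gp

set_option autoImplicit false

namespace Pool.Agent.R507.AMZ
open Pool.Agent.W367.SN H Gp

/-- the additive character of `ZMod 5` -/
noncomputable abbrev ψ : AddChar (ZMod 5) ℂ := ZMod.stdAddChar (N := 5)
/-- the additive character of `ZMod 3` -/
noncomputable abbrev ω : AddChar (ZMod 3) ℂ := ZMod.stdAddChar (N := 3)

/-- `Σ_{x ≠ 0} ψ(x a)` -/
def sv (a : ZMod 5) : ℤ := if a = 0 then 4 else -1

theorem sum_sv (a : ZMod 5) : ∑ x ∈ Finset.univ.filter (fun x : ZMod 5 => x ≠ 0), ψ (x * a) = sv a := by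
  have h := AddChar.sum_mulShift a (ZMod.isPrimitive_stdAddChar 5)
  have h1 : ∑ x : ZMod 5, ψ (x * a) =
      ψ (0 * a) + ∑ x ∈ Finset.univ.filter (fun x : ZMod 5 => x ≠ 0), ψ (x * a) := by
    rw [Finset.filter_ne' Finset.univ (0 : ZMod 5)]
    exact (Finset.add_sum_erase Finset.univ (fun x : ZMod 5 => ψ (x * a))
      (Finset.mem_univ (0 : ZMod 5))).symm
  rw [h1, zero_mul, AddChar.map_zero_eq_one] at h
  have h2 : Fintype.card (ZMod 5) = 5 := ZMod.card 5
  by_cases ha : a = 0
  · rw [if_pos ha, h2] at h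
    rw [sv, if_pos ha]
    push_cast at h ⊢
    linear_combination h
  · rw [if_neg ha] at h
    rw [sv, if_neg ha]
    push_cast at h ⊢
    linear_combination h

theorem sum_ω (a : ZMod 3) : ∑ x : ZMod 3, ω (x * a) = if a = 0 then 3 else 0 := by
  rw [AddChar.sum_mulShift a (ZMod.isPrimitive_stdAddChar 3), ZMod.card]
  split_ifs <;> simp

/-- representatives of lines -/
def lines : Fin 4 → Finset V := ![{(1, 0), (0, 1)}, {(1, 1), (1, 4)}, {(1, 2), (1, 3)},
  {(1, 0), (0, 1), (1, 1), (1, 4), (1, 2), (1, 3)}]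

/-- the nonzero vectors on these lines -/
def O (i : Fin 4) : Finset V :=
  ((Finset.univ.filter (fun x : ZMod 5 => x ≠ 0)) ×ˢ lines i).image
    (fun p => (p.1 * p.2.1, p.1 * p.2.2))

theorem O_inj : ∀ i : Fin 4, ∀ p ∈ (Finset.univ.filter (fun x : ZMod 5 => x ≠ 0)) ×ˢ lines i,
    ∀ q ∈ (Finset.univ.filter (fun x : ZMod 5 => x ≠ 0)) ×ˢ lines i,
    (p.1 * p.2.1, p.1 * p.2.2) = (q.1 * q.2.1, q.1 * q.2.2) → p = q := by decide +kernel

theorem O_ne : ∀ i : Fin 4, ∀ w ∈ O i, w ≠ 0 := by decide +kernel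

theorem O_act : ∀ i : Fin 3, ∀ a : H, cc a = 0 → ∀ w ∈ O i.castSucc, act a w ∈ O i.castSucc := by
  decide +kernel

theorem O_act3 : ∀ a : H, ∀ w ∈ O 3, act a w ∈ O 3 := by decide +kernel

/-- `Σ_{w ∈ O i} ψ(B w v)` -/
def th (i : Fin 4) (v : V) : ℤ := ∑ u ∈ lines i, sv (B u v)

theorem sum_O (i : Fin 4) (v : V) : ∑ w ∈ O i, ψ (B w v) = th i v := by
  rw [O, Finset.sum_image (fun p hp q hq h => O_inj i p hp q hq h), Finset.sum_product_right]
  rw [th]
  push_cast
  apply Finset.sum_congr rfl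
  intro u _
  rw [← sum_sv]
  apply Finset.sum_congr rfl
  intro x _
  congr 1
  simp only [B]
  ring

section mono
variable {K : Type} [Group K] (r : K →* Gp) (i : Fin 4)
  (hO : ∀ k, ∀ w ∈ O i, act (r k).h w ∈ O i)

/-- monomial representation -/
noncomputable def mono : K →* Matrix (O i) (O i) ℂ where
  toFun k := Matrix.of fun w w' => if w.1 = act (r k).h w'.1 then ψ (B w.1 (r k).v) else 0
  map_one' := by
    ext w w'
    rw [Matrix.of_apply, map_one, one_h, one_v, act_one, Matrix.one_apply]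
    by_cases h : w = w'
    · rw [if_pos (congrArg Subtype.val h), if_pos h]
      have : B w.1 0 = 0 := by simp [B]
      rw [this, AddChar.map_zero_eq_one]
    · rw [if_neg (fun h' => h (Subtype.ext h')), if_neg h]
  map_mul' k k' := by
    ext w w'
    rw [Matrix.mul_apply]
    simp only [Matrix.of_apply]
    rw [Finset.sum_eq_single (⟨act (r k').h w'.1, hO k' w'.1 w'.2⟩ : O i)]
    · rw [if_pos rfl, map_mul, mul_h, mul_v, act_mul]
      by_cases h : w.1 = act (r k).h (act (r k').h w'.1)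
      · rw [if_pos h, if_pos h, B_add, AddChar.map_add_eq_mul]
        congr 2
        rw [h, B_act]
      · rw [if_neg h, if_neg h, zero_mul]
    · intro w'' _ hne
      rw [if_neg (fun h => hne (Subtype.ext h)) (c := w''.1 = act (r k').h w'.1), mul_zero]
    · intro h; exact absurd (Finset.mem_univ _) h

theorem mono_trace (k : K) :
    (mono r i hO k).trace = if (r k).h = 1 then (th i (r k).v : ℂ) else 0 := by
  rw [Matrix.trace]
  simp only [Matrix.diag_apply]
  change ∑ w : O i, (if w.1 = act (r k).h w.1 then ψ (B w.1 (r k).v) else 0) = _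
  by_cases h : (r k).h = 1
  · rw [if_pos h, ← sum_O, ← Finset.sum_coe_sort (O i)]
    apply Finset.sum_congr rfl
    intro w _
    rw [h, act_one, if_pos rfl]
  · rw [if_neg h]
    apply Finset.sum_eq_zero
    intro w _
    rw [if_neg]
    intro h'
    exact O_ne i w.1 w.2 (act_free _ h w.1 h'.symm)

end mono

/-- summation over elements of `V` in a group -/
theorem sum_tr {K : Type} [Group K] [Fintype K] (r : K →* Gp) (hr : Function.Injective r)
    (hs : ∀ v : V, ∃ k, r k = ⟨v, 1⟩) (f : V → ℂ) :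
    ∑ k, (if (r k).h = 1 then f (r k).v else 0) = ∑ v, f v := by
  rw [← Finset.sum_filter]
  refine Finset.sum_bij (fun k _ => (r k).v) (fun _ _ => Finset.mem_univ _) ?_ ?_ (fun _ _ => rfl)
  · intro k hk k' hk' h
    rw [Finset.mem_filter] at hk hk'
    apply hr
    apply Gp.ext' h
    rw [hk.2, hk'.2]
  · intro v _
    obtain ⟨k, hk⟩ := hs v
    refine ⟨k, ?_, ?_⟩
    · rw [Finset.mem_filter]; exact ⟨Finset.mem_univ _, by rw [hk]⟩
    · simp only [hk]

theorem mono_mem {K : Type} [Group K] [Fintype K] (r : K →* Gp) (hr : Function.Injective r)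
    (hs : ∀ v : V, ∃ k, r k = ⟨v, 1⟩) (i : Fin 4)
    (hO : ∀ k, ∀ w ∈ O i, act (r k).h w ∈ O i)
    (hn : ((∑ v : V, th i v * th i (-v) : ℤ) : ℂ) = Fintype.card K) :
    (fun k => if (r k).h = 1 then (th i (r k).v : ℂ) else 0) ∈ IrrC K := by
  have h := mem_irr_of_matrix (mono r i hO) (by
    simp only [mono_trace]
    rw [← hn, Int.cast_sum, ← sum_tr r hr hs]
    apply Finset.sum_congr rfl
    intro k _
    rw [map_inv, inv_h, inv_v]
    by_cases h : (r k).h = 1
    · rw [if_pos h, if_pos (by rw [h, inv_one]), if_pos h, h, inv_one, act_one]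
      push_cast; rfl
    · rw [if_neg h, if_neg h, zero_mul])
  simpa only [mono_trace] using h

theorem th_norm : (∑ v : V, th 0 v * th 0 (-v)) = 200 ∧ (∑ v : V, th 1 v * th 1 (-v)) = 200 ∧
    (∑ v : V, th 2 v * th 2 (-v)) = 200 ∧ (∑ v : V, th 3 v * th 3 (-v)) = 600 := by
  decide +kernel

theorem th3 : ∀ v : V, th 3 v = if v = 0 then 24 else -1 := by decide +kernel

end Pool.Agent.R507.AMZ
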