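import Pool.Agent.W367.SN.Irr

set_option autoImplicit false
open CategoryTheory

namespace Pool.Agent.R507.AMZ
open Pool.Agent.W367.SN

/-- The amenability constant of the central Fourier algebra of the finite group `G`, by the
formula of Alaghmandan and Spronk. -/
noncomputable def AMZA (G : Type) [Group G] : ℝ :=
  (1 / (Nat.card G : ℝ) ^ 2) * ∑ᶠ χ : IrrC G, ∑ᶠ χ' : IrrC G, ‖χ.1 1‖ * ‖χ'.1 1‖ *
    ‖∑ᶠ C : ConjClasses G, (Nat.card C.carrier : ℂ) ^ 2 *
      (χ.1 (Quotient.out C) * (starRingEnd ℂ) (χ'.1 (Quotient.out C)))‖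

/-- indicator of conjugacy -/
noncomputable def cI {G : Type} [Group G] (g g' : G) : ℂ :=
  @ite ℂ (IsConj g g') (Classical.propDecidable _) 1 0

theorem cI_pos {G : Type} [Group G] {g g' : G} (h : IsConj g g') : cI g g' = 1 := by
  rw [cI, if_pos h]

theorem cI_neg {G : Type} [Group G] {g g' : G} (h : ¬ IsConj g g') : cI g g' = 0 := by
  rw [cI, if_neg h]

section gen
variable {G : Type} [Group G] [Fintype G]

open Classical in
theorem T_eq (f f' : G → ℂ) (hf : ∀ g u, f (u * g * u⁻¹) = f g)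
    (hf' : ∀ g u, f' (u * g * u⁻¹) = f' g) :
    (∑ᶠ C : ConjClasses G, (Nat.card C.carrier : ℂ) ^ 2 *
      (f (Quotient.out C) * (starRingEnd ℂ) (f' (Quotient.out C)))) =
    ∑ g, ∑ g', cI g g' * (f g * (starRingEnd ℂ) (f' g')) := by
  rw [finsum_eq_sum_of_fintype]
  have key : ∀ (F : G → ℂ), (∀ g u, F (u * g * u⁻¹) = F g) → ∀ (C : ConjClasses G) (g : G),
      ConjClasses.mk g = C → F g = F (Quotient.out C) := by
    intro F hF C g hg
    have h1 : ConjClasses.mk (Quotient.out C) = ConjClasses.mk g := by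
      rw [hg]; exact Quotient.out_eq C
    rw [ConjClasses.mk_eq_mk_iff_isConj, isConj_iff] at h1
    obtain ⟨c, hc⟩ := h1
    rw [← hc, hF]
  have hcard : ∀ C : ConjClasses G, (Nat.card C.carrier : ℂ) =
      ((Finset.univ.filter (fun g : G => ConjClasses.mk g = C)).card : ℂ) := by
    intro C
    congr 1
    rw [Nat.card_eq_fintype_card, Fintype.card_subtype]
    congr 1
    ext g
    simp [ConjClasses.mem_carrier_iff_mk_eq]
  rw [← Finset.sum_fiberwise Finset.univ (fun g : G => ConjClasses.mk g)]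
  apply Finset.sum_congr rfl
  intro C _
  rw [sq, hcard]
  have h2 : ∀ g ∈ Finset.univ.filter (fun g : G => ConjClasses.mk g = C),
      (∑ g', cI g g' * (f g * (starRingEnd ℂ) (f' g'))) =
      ((Finset.univ.filter (fun g : G => ConjClasses.mk g = C)).card : ℂ) *
        (f (Quotient.out C) * (starRingEnd ℂ) (f' (Quotient.out C))) := by
    intro g hg
    rw [Finset.mem_filter] at hg
    have h3 : ∀ g', cI g g' * (f g * (starRingEnd ℂ) (f' g')) =
        if ConjClasses.mk g' = C then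
          (f (Quotient.out C) * (starRingEnd ℂ) (f' (Quotient.out C))) else 0 := by
      intro g'
      by_cases h : IsConj g g'
      · have h4 : ConjClasses.mk g' = C := by
          rw [← hg.2]; exact (ConjClasses.mk_eq_mk_iff_isConj.2 h).symm
        rw [cI_pos h, if_pos h4, one_mul, key f hf C g hg.2, key f' hf' C g' h4]
      · have h4 : ¬ ConjClasses.mk g' = C := by
          intro h5
          apply h
          rw [← ConjClasses.mk_eq_mk_iff_isConj, hg.2, h5]
        rw [cI_neg h, if_neg h4, zero_mul]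
    rw [Finset.sum_congr rfl (fun g' _ => h3 g'), ← Finset.sum_filter, Finset.sum_const,
      nsmul_eq_mul]
  rw [Finset.sum_congr rfl h2, Finset.sum_const, nsmul_eq_mul]
  ring

/-- unnormalised pairing -/
noncomputable def P (f χ : G → ℂ) : ℂ := ∑ g, f g * χ g

/-- norm of `f` -/
noncomputable def nA (f : G → ℂ) : ℝ := ∑ᶠ χ : IrrC G, ‖χ.1 1‖ * ‖P f χ.1‖

noncomputable instance instFintypeIrr : Fintype (IrrC G) := irr_finite.fintype

theorem nA_eq (f : G → ℂ) : nA f = ∑ χ : IrrC G, ‖χ.1 1‖ * ‖P f χ.1‖ := by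
  rw [nA, finsum_eq_sum_of_fintype]

theorem nA_nonneg (f : G → ℂ) : 0 ≤ nA f := by
  rw [nA_eq]; positivity

theorem nA_add (f f' : G → ℂ) : nA (fun g => f g + f' g) ≤ nA f + nA f' := by
  rw [nA_eq, nA_eq, nA_eq, ← Finset.sum_add_distrib]
  apply Finset.sum_le_sum
  intro χ _
  rw [← mul_add]
  apply mul_le_mul_of_nonneg_left _ (norm_nonneg _)
  have : P (fun g => f g + f' g) χ.1 = P f χ.1 + P f' χ.1 := by
    simp only [P, add_mul, Finset.sum_add_distrib]
  rw [this]
  exact norm_add_le _ _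

theorem nA_smul (c : ℂ) (f : G → ℂ) : nA (fun g => c * f g) = ‖c‖ * nA f := by
  rw [nA_eq, nA_eq, Finset.mul_sum]
  apply Finset.sum_congr rfl
  intro χ _
  have : P (fun g => c * f g) χ.1 = c * P f χ.1 := by
    simp only [P, Finset.mul_sum, mul_assoc]
  rw [this, norm_mul]
  ring

theorem nA_irr {α : G → ℂ} (hα : α ∈ IrrC G) :
    nA (fun g => α g⁻¹) = Fintype.card G * ‖α 1‖ := by
  classical
  rw [nA_eq, Finset.sum_eq_single (⟨α, hα⟩ : IrrC G)]
  · have : P (fun g => α g⁻¹) α = Fintype.card G := by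
      rw [← irr_norm hα]
      exact Finset.sum_congr rfl (fun g _ => mul_comm _ _)
    simp only [this, Complex.norm_natCast]
    ring
  · intro χ _ hne
    have : P (fun g => α g⁻¹) χ.1 = 0 := by
      rw [← irr_orth χ.2 hα (fun h => hne (Subtype.ext h))]
      exact Finset.sum_congr rfl (fun g _ => mul_comm _ _)
    rw [this]; simp
  · intro h; exact absurd (Finset.mem_univ _) h

open Classical in
theorem AMZA_eq : AMZA G = (1 / (Fintype.card G : ℝ) ^ 2) *
    ∑ χ : IrrC G, ∑ χ' : IrrC G, ‖χ.1 1‖ * ‖χ'.1 1‖ *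
      ‖∑ g, ∑ g', cI g g' *
        (χ.1 g * (starRingEnd ℂ) (χ'.1 g'))‖ := by
  rw [AMZA, Nat.card_eq_fintype_card, finsum_eq_sum_of_fintype]
  congr 1
  apply Finset.sum_congr rfl
  intro χ _
  rw [finsum_eq_sum_of_fintype]
  apply Finset.sum_congr rfl
  intro χ' _
  rw [T_eq χ.1 χ'.1 (fun g u => irr_class χ.2 g u) (fun g u => irr_class χ'.2 g u)]

open Classical in
/-- Upper bound from a decomposition of the diagonal. -/
theorem AMZA_le {κ : Type} [Fintype κ] (c : κ → ℂ) (f h : κ → G → ℂ) (r s : κ → ℝ)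
    (hD : ∀ g g' : G, cI g g' = ∑ k, c k * (f k g * h k g'))
    (hr : ∀ k, nA (f k) ≤ Fintype.card G * r k)
    (hs : ∀ k, nA (fun g => (starRingEnd ℂ) (h k g)) ≤ Fintype.card G * s k) :
    AMZA G ≤ ∑ k, ‖c k‖ * (r k * s k) := by
  have hG : (0 : ℝ) < Fintype.card G := by exact_mod_cast Fintype.card_pos
  rw [AMZA_eq]
  have h1 : ∀ χ χ' : IrrC G, ‖∑ g, ∑ g', cI g g' *
        (χ.1 g * (starRingEnd ℂ) (χ'.1 g'))‖ ≤
      ∑ k, ‖c k‖ * (‖P (f k) χ.1‖ * ‖P (fun g => (starRingEnd ℂ) (h k g)) χ'.1‖) := by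
    intro χ χ'
    have h2 : (∑ g, ∑ g', cI g g' *
        (χ.1 g * (starRingEnd ℂ) (χ'.1 g'))) =
        ∑ k, c k * (P (f k) χ.1 *
          (starRingEnd ℂ) (P (fun g => (starRingEnd ℂ) (h k g)) χ'.1)) := by
      have h5 : ∀ k, c k * (P (f k) χ.1 *
          (starRingEnd ℂ) (P (fun g => (starRingEnd ℂ) (h k g)) χ'.1)) =
          ∑ g, ∑ g', c k * (f k g * h k g') * (χ.1 g * (starRingEnd ℂ) (χ'.1 g')) := by
        intro k
        simp only [P, map_sum, map_mul, Complex.conj_conj]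
        rw [Finset.sum_mul_sum, Finset.mul_sum]
        apply Finset.sum_congr rfl; intro g _
        rw [Finset.mul_sum]
        apply Finset.sum_congr rfl; intro g' _
        ring
      rw [Finset.sum_congr rfl (fun k _ => h5 k)]
      symm
      rw [Finset.sum_comm]
      apply Finset.sum_congr rfl; intro g _
      rw [Finset.sum_comm]
      apply Finset.sum_congr rfl; intro g' _
      rw [hD, Finset.sum_mul]
    rw [h2]
    refine (norm_sum_le _ _).trans (Finset.sum_le_sum (fun k _ => ?_))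
    rw [norm_mul, norm_mul, RCLike.norm_conj]
  have h3 : ∑ χ : IrrC G, ∑ χ' : IrrC G, ‖χ.1 1‖ * ‖χ'.1 1‖ *
      ‖∑ g, ∑ g', cI g g' *
        (χ.1 g * (starRingEnd ℂ) (χ'.1 g'))‖ ≤
      ∑ k, ‖c k‖ * (nA (f k) * nA (fun g => (starRingEnd ℂ) (h k g))) := by
    calc _ ≤ ∑ χ : IrrC G, ∑ χ' : IrrC G, ‖χ.1 1‖ * ‖χ'.1 1‖ *
        ∑ k, ‖c k‖ * (‖P (f k) χ.1‖ * ‖P (fun g => (starRingEnd ℂ) (h k g)) χ'.1‖) := by
          apply Finset.sum_le_sum; intro χ _
          apply Finset.sum_le_sum; intro χ' _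
          exact mul_le_mul_of_nonneg_left (h1 χ χ') (by positivity)
      _ = ∑ k, ‖c k‖ * (nA (f k) * nA (fun g => (starRingEnd ℂ) (h k g))) := by
          have h5 : ∀ k, ‖c k‖ * (nA (f k) * nA (fun g => (starRingEnd ℂ) (h k g))) =
              ∑ χ : IrrC G, ∑ χ' : IrrC G, ‖χ.1 1‖ * ‖χ'.1 1‖ * (‖c k‖ * (‖P (f k) χ.1‖ *
                ‖P (fun g => (starRingEnd ℂ) (h k g)) χ'.1‖)) := by
            intro k
            rw [nA_eq, nA_eq, Finset.sum_mul_sum, Finset.mul_sum]
            apply Finset.sum_congr rfl; intro χ _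
            rw [Finset.mul_sum]
            apply Finset.sum_congr rfl; intro χ' _
            ring
          rw [Finset.sum_congr rfl (fun k _ => h5 k)]
          symm
          rw [Finset.sum_comm]
          apply Finset.sum_congr rfl; intro χ _
          rw [Finset.sum_comm]
          apply Finset.sum_congr rfl; intro χ' _
          rw [Finset.mul_sum]
  calc _ ≤ (1 / (Fintype.card G : ℝ) ^ 2) *
        ∑ k, ‖c k‖ * (nA (f k) * nA (fun g => (starRingEnd ℂ) (h k g))) :=
        mul_le_mul_of_nonneg_left h3 (by positivity)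
    _ ≤ (1 / (Fintype.card G : ℝ) ^ 2) *
        ∑ k, ‖c k‖ * ((Fintype.card G * r k) * (Fintype.card G * s k)) := by
        apply mul_le_mul_of_nonneg_left _ (by positivity)
        apply Finset.sum_le_sum; intro k _
        apply mul_le_mul_of_nonneg_left _ (norm_nonneg _)
        exact mul_le_mul (hr k) (hs k) (nA_nonneg _) ((nA_nonneg _).trans (hr k))
    _ = ∑ k, ‖c k‖ * (r k * s k) := by
        rw [Finset.mul_sum]
        apply Finset.sum_congr rfl; intro k _
        field_simp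

open Classical in
/-- Lower bound from some of the irreducible characters. -/
theorem le_AMZA {ι : Type} [Fintype ι] (α : ι → G → ℂ) (hα : ∀ i, α i ∈ IrrC G)
    (hinj : Function.Injective α) :
    (1 / (Fintype.card G : ℝ) ^ 2) * ∑ i, ∑ j, ‖α i 1‖ * ‖α j 1‖ *
      ‖∑ g, ∑ g', cI g g' *
        (α i g * (starRingEnd ℂ) (α j g'))‖ ≤ AMZA G := by
  rw [AMZA_eq]
  apply mul_le_mul_of_nonneg_left _ (by positivity)
  let e : ι → IrrC G := fun i => ⟨α i, hα i⟩
  have he : Function.Injective e := fun i j h => hinj (congrArg Subtype.val h)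
  have h1 : ∀ (F : IrrC G → ℝ), (∀ χ, 0 ≤ F χ) → ∑ i, F (e i) ≤ ∑ χ, F χ := by
    intro F hF
    calc ∑ i, F (e i) = ∑ χ ∈ Finset.univ.image e, F χ := by
          rw [Finset.sum_image (fun i _ j _ h => he h)]
      _ ≤ ∑ χ, F χ := Finset.sum_le_univ_sum_of_nonneg hF
  refine le_trans ?_ (h1 (fun χ => ∑ χ' : IrrC G, ‖χ.1 1‖ * ‖χ'.1 1‖ *
      ‖∑ g, ∑ g', cI g g' *
        (χ.1 g * (starRingEnd ℂ) (χ'.1 g'))‖) (fun χ => by positivity))
  apply Finset.sum_le_sum
  intro i _
  exact h1 (fun χ' => ‖(e i).1 1‖ * ‖χ'.1 1‖ *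
      ‖∑ g, ∑ g', cI g g' *
        ((e i).1 g * (starRingEnd ℂ) (χ'.1 g'))‖) (fun χ => by positivity)

end gen

end Pool.Agent.R507.AMZ
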