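import Mathlib

set_option autoImplicit false

namespace Pool.Agent.R507.AMZ

/-! The binary tetrahedral group (order 24), by tables. -/

/-- multiplication table -/
def mulN : ℕ := 359082749922685630415273630109441535726456260967733751885814115736788954046664778937421390264702569290102905604391809565555649753218570328868941120423843449764508884725187434285808071286421838440891226988673371605444140577890931924932085412419503256043500271558346631647571160933574875524410395652801638670336465417859477485738298273934812934942827356558907259529176822982172558092301637481988126300568696633700925893256143634621245893660913236207587479300851512660015103561175640207439523191491998846566843585919370647721991094217849824375969707667599942764889273533402140239732757316193218098521043662837164972517462011922937727041329966243678196098698811384022413660205167197414875083285995896985909494907559164248089835621312230348610847220136251694268702374202960076521495592038703280445608129210426463947178985125276421512903953772358325786896464652502843885600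
def invN : ℕ := 515755629083040708733641171095587872
def matN : ℕ := 213849503450649013625749014394799371299998908353850029575714935445977646335757152961025
def rotN : ℕ := 4386678373766985824951472973714795504786412083609264131671100029788877597913698801136681077253438908919598620509270145593564091990
def quaN : ℕ := 210918871484111255818683121161287783817734572627859335666657761462050093123767248684180

/-- the binary tetrahedral group -/
structure H where
  v : Fin 24
  deriving DecidableEq

namespace H

def e : H ≃ Fin 24 := ⟨H.v, H.mk, fun _ => rfl, fun _ => rfl⟩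

instance : Fintype H := Fintype.ofEquiv (Fin 24) e.symm

def mul (a b : H) : H := ⟨Fin.ofNat 24 (Nat.shiftRight mulN (5 * (24 * a.v.1 + b.v.1)) % 32)⟩
def inv (a : H) : H := ⟨Fin.ofNat 24 (Nat.shiftRight invN (5 * a.v.1) % 32)⟩

theorem all_iff (p : H → Prop) : (∀ a, p a) ↔ ∀ x : Fin 24, p ⟨x⟩ :=
  ⟨fun h x => h ⟨x⟩, fun h a => h a.v⟩

instance decAll (p : H → Prop) [DecidablePred p] : Decidable (∀ a, p a) :=
  decidable_of_iff _ (all_iff p).symm

theorem mul_assoc' : ∀ a b c : H, mul (mul a b) c = mul a (mul b c) := by decide +kernel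
theorem one_mul' : ∀ a : H, mul ⟨0⟩ a = a := by decide +kernel
theorem mul_one' : ∀ a : H, mul a ⟨0⟩ = a := by decide +kernel
theorem inv_mul' : ∀ a : H, mul (inv a) a = ⟨0⟩ := by decide +kernel

instance : Group H where
  mul := mul
  one := ⟨0⟩
  inv := inv
  mul_assoc := mul_assoc'
  one_mul := one_mul'
  mul_one := mul_one'
  inv_mul_cancel := inv_mul'

/-- homomorphism to `ZMod 3` -/
def cc (a : H) : Fin 3 := Fin.ofNat 3 (a.v.1 / 8)

/-- matrix entries modulo 5 -/
def m (a : H) (k : ℕ) : ZMod 5 := (Fin.ofNat 5 (Nat.shiftRight matN (3 * (4 * a.v.1 + k)) % 8) : Fin 5)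

/-- rotation matrix -/
def ro (a : H) (i j : ℕ) : ℤ :=
  ((Nat.shiftRight rotN (2 * (9 * a.v.1 + 3 * i + j)) % 4 : ℕ) : ℤ) - 1

/-- doubled quaternion coordinates -/
def qa (a : H) (k : ℕ) : ℤ := ((Nat.shiftRight quaN (3 * (4 * a.v.1 + k)) % 8 : ℕ) : ℤ) - 2

theorem cc_mul : ∀ a b : H, cc (a * b) = cc a + cc b := by decide +kernel

theorem m_mul : ∀ a b : H, m (a * b) 0 = m a 0 * m b 0 + m a 1 * m b 2 ∧
    m (a * b) 1 = m a 0 * m b 1 + m a 1 * m b 3 ∧
    m (a * b) 2 = m a 2 * m b 0 + m a 3 * m b 2 ∧
    m (a * b) 3 = m a 2 * m b 1 + m a 3 * m b 3 := by decide +kernel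

theorem m_one : m 1 0 = 1 ∧ m 1 1 = 0 ∧ m 1 2 = 0 ∧ m 1 3 = 1 := by decide +kernel

theorem m_det : ∀ a : H, m a 0 * m a 3 - m a 1 * m a 2 = 1 := by decide +kernel

theorem ro_mul : ∀ a b : H, ∀ i j : Fin 3, ro (a * b) i j =
    ro a i 0 * ro b 0 j + ro a i 1 * ro b 1 j + ro a i 2 * ro b 2 j := by decide +kernel

theorem ro_one : ∀ i j : Fin 3, ro 1 i j = if i = j then 1 else 0 := by decide +kernel

theorem qa_mul : ∀ a b : H,
    2 * qa (a * b) 0 = qa a 0 * qa b 0 - qa a 1 * qa b 1 - qa a 2 * qa b 2 - qa a 3 * qa b 3 ∧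
    2 * qa (a * b) 1 = qa a 0 * qa b 1 + qa a 1 * qa b 0 + qa a 2 * qa b 3 - qa a 3 * qa b 2 ∧
    2 * qa (a * b) 2 = qa a 0 * qa b 2 - qa a 1 * qa b 3 + qa a 2 * qa b 0 + qa a 3 * qa b 1 ∧
    2 * qa (a * b) 3 = qa a 0 * qa b 3 + qa a 1 * qa b 2 - qa a 2 * qa b 1 + qa a 3 * qa b 0 := by
  decide +kernel

theorem qa_one : qa 1 0 = 2 ∧ qa 1 1 = 0 ∧ qa 1 2 = 0 ∧ qa 1 3 = 0 := by decide +kernel

/-- trace of the rotation -/
def mt (a : H) : ℤ := ro a 0 0 + ro a 1 1 + ro a 2 2
/-- trace of the two-dimensional representation -/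
def tt (a : H) : ℤ := qa a 0

theorem mt_inv : ∀ a : H, mt a⁻¹ = mt a := by decide +kernel
theorem tt_inv : ∀ a : H, tt a⁻¹ = tt a := by decide +kernel
theorem mt_one : mt 1 = 3 := by decide +kernel
theorem tt_one : tt 1 = 2 := by decide +kernel

/-- conjugacy, decidable form -/
def cj (a b : H) : Bool := decide (∃ k : H, k * a = b * k)

theorem key : ∀ a b : H, 32 * (if cj a b then (1 : ℤ) else 0) =
    16 * (if cc a = cc b then 1 else 0) + 16 * (tt a * tt b * (if cc a = cc b then 1 else 0)) +
    3 * ((if cc a = 0 then 1 else 0) * (if cc b = 0 then 1 else 0)) -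
    12 * ((tt a * (if cc a = 0 then 1 else 0)) * (tt b * (if cc b = 0 then 1 else 0))) -
    5 * ((if cc a = 0 then 1 else 0) * mt b) - 5 * (mt a * (if cc b = 0 then 1 else 0)) +
    3 * (mt a * mt b) := by decide +kernel

theorem sum_mt : ∑ a : H, mt a * mt a = 24 := by decide +kernel
theorem sum_tt : ∑ a : H, tt a * tt a = 24 := by decide +kernel

theorem delta : ∀ a : H, 24 * (if a = 1 then (1 : ℤ) else 0) =
    3 * (if cc a = 0 then 1 else 0) + 3 * mt a + 6 * (tt a * (if cc a = 0 then 1 else 0)) := by
  decide +kernel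

/-- action on the plane -/
def act (a : H) (w : ZMod 5 × ZMod 5) : ZMod 5 × ZMod 5 :=
  (m a 0 * w.1 + m a 1 * w.2, m a 2 * w.1 + m a 3 * w.2)

theorem act_one (w : ZMod 5 × ZMod 5) : act 1 w = w := by
  obtain ⟨h0, h1, h2, h3⟩ := m_one
  simp [act, h0, h1, h2, h3]

theorem act_mul (a b : H) (w : ZMod 5 × ZMod 5) : act (a * b) w = act a (act b w) := by
  obtain ⟨h0, h1, h2, h3⟩ := m_mul a b
  apply Prod.ext
  · simp only [act, h0, h1]; ring
  · simp only [act, h2, h3]; ring

theorem act_add (a : H) (w w' : ZMod 5 × ZMod 5) : act a (w + w') = act a w + act a w' := by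
  apply Prod.ext
  · simp only [act, Prod.fst_add, Prod.snd_add]; ring
  · simp only [act, Prod.fst_add, Prod.snd_add]; ring

theorem act_zero (a : H) : act a 0 = 0 := by simp [act]

theorem act_neg (a : H) (w : ZMod 5 × ZMod 5) : act a (-w) = -act a w := by
  apply Prod.ext
  · simp only [act, Prod.fst_neg, Prod.snd_neg]; ring
  · simp only [act, Prod.fst_neg, Prod.snd_neg]; ring

/-- the symplectic form -/
def B (w v : ZMod 5 × ZMod 5) : ZMod 5 := w.1 * v.2 - w.2 * v.1

theorem B_act (a : H) (w v : ZMod 5 × ZMod 5) : B (act a w) (act a v) = B w v := by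
  have h := m_det a
  simp only [B, act]
  linear_combination (w.1 * v.2 - w.2 * v.1) * h

theorem B_add (w v v' : ZMod 5 × ZMod 5) : B w (v + v') = B w v + B w v' := by
  simp only [B, Prod.fst_add, Prod.snd_add]; ring

theorem act_free : ∀ a : H, a ≠ 1 → ∀ w : ZMod 5 × ZMod 5, act a w = w → w = 0 := by
  decide +kernel

theorem act_trans : ∀ w w' : ZMod 5 × ZMod 5, w ≠ 0 → w' ≠ 0 → ∃ a : H, act a w = w' := by
  decide +kernel

theorem act_surj : ∀ a : H, a ≠ 1 → ∀ w : ZMod 5 × ZMod 5, ∃ u, u - act a u = w := by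
  decide +kernel

theorem comm_q : ∀ q : H, cc q = 0 → ∃ x y : H, q = x * y * x⁻¹ * y⁻¹ := by decide +kernel

end H

end Pool.Agent.R507.AMZ
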