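import Pool.Agent.R507.AMZ.Gen
import Pool.Agent.R507.AMZ.Grp

set_option autoImplicit false

namespace Pool.Agent.R507.AMZ
open Pool.Agent.W367.SN H

abbrev V := ZMod 5 × ZMod 5

/-- the group of order 600 -/
structure Gp where
  v : V
  h : H
  deriving DecidableEq

namespace Gp

theorem ext' {a b : Gp} (h1 : a.v = b.v) (h2 : a.h = b.h) : a = b := by
  cases a; cases b; simp only at h1 h2; rw [h1, h2]

def e : Gp ≃ V × H := ⟨fun g => (g.v, g.h), fun p => ⟨p.1, p.2⟩, fun _ => rfl, fun _ => rfl⟩

instance : Fintype Gp := Fintype.ofEquiv (V × H) e.symm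

instance : Mul Gp := ⟨fun a b => ⟨a.v + act a.h b.v, a.h * b.h⟩⟩
instance : One Gp := ⟨⟨0, 1⟩⟩
instance : Inv Gp := ⟨fun a => ⟨-act a.h⁻¹ a.v, a.h⁻¹⟩⟩

theorem mul_v (a b : Gp) : (a * b).v = a.v + act a.h b.v := rfl
theorem mul_h (a b : Gp) : (a * b).h = a.h * b.h := rfl
theorem one_v : (1 : Gp).v = 0 := rfl
theorem one_h : (1 : Gp).h = 1 := rfl
theorem inv_v (a : Gp) : (a⁻¹).v = -act a.h⁻¹ a.v := rfl
theorem inv_h (a : Gp) : (a⁻¹).h = a.h⁻¹ := rfl

instance : Group Gp where
  mul_assoc a b c := by
    apply ext'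
    · simp only [mul_v, mul_h, act_add, act_mul, add_assoc]
    · simp only [mul_h, mul_assoc]
  one_mul a := by
    apply ext'
    · simp only [mul_v, one_v, one_h, act_one, zero_add]
    · simp only [mul_h, one_h, one_mul]
  mul_one a := by
    apply ext'
    · simp only [mul_v, one_v, act_zero, add_zero]
    · simp only [mul_h, one_h, mul_one]
  inv_mul_cancel a := by
    apply ext'
    · simp only [mul_v, inv_v, inv_h, one_v, neg_add_cancel]
    · simp only [mul_h, inv_h, one_h, inv_mul_cancel]

def proj : Gp →* H where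
  toFun := Gp.h
  map_one' := rfl
  map_mul' _ _ := rfl

theorem card_Gp : Fintype.card Gp = 600 := by
  rw [Fintype.card_congr e]; decide +kernel

theorem sum_Gp (f : V → H → ℂ) : ∑ g : Gp, f g.v g.h = ∑ v, ∑ a, f v a := by
  rw [← Fintype.sum_prod_type']
  exact Equiv.sum_comp e (fun p => f p.1 p.2)

theorem conj_iff (g g' : Gp) : IsConj g g' ↔
    (cj g.h g'.h = true ∧ (g.h = 1 → (g.v = 0 ↔ g'.v = 0))) := by
  constructor
  · intro h
    obtain ⟨c, hc⟩ := isConj_iff.1 h
    have h1 : c * g = g' * c := by rw [← hc]; group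
    have h2 : c.h * g.h = g'.h * c.h := congrArg Gp.h h1
    have h3 : c.v + act c.h g.v = g'.v + act g'.h c.v := congrArg Gp.v h1
    refine ⟨?_, ?_⟩
    · rw [cj, decide_eq_true_iff]; exact ⟨c.h, h2⟩
    · intro h4
      have h5 : g'.h = 1 := by
        rw [h4, mul_one] at h2
        exact (mul_eq_right.1 h2.symm)
      rw [h5, act_one] at h3
      have h6 : act c.h g.v = g'.v := by
        have := h3; rw [add_comm] at this; exact add_right_cancel this
      constructor
      · intro h7; rw [← h6, h7, act_zero]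
      · intro h7
        have : act c.h⁻¹ (act c.h g.v) = 0 := by rw [h6, h7, act_zero]
        rwa [← act_mul, inv_mul_cancel, act_one] at this
  · rintro ⟨h1, h2⟩
    rw [cj, decide_eq_true_iff] at h1
    obtain ⟨k, hk⟩ := h1
    -- conjugate by (0, k)
    have h3 : IsConj g (⟨act k g.v, g'.h⟩ : Gp) := by
      rw [isConj_iff]
      refine ⟨⟨0, k⟩, ?_⟩
      rw [mul_inv_eq_iff_eq_mul]
      apply ext'
      · simp only [mul_v, act_zero, add_zero, zero_add]
      · simp only [mul_h]; exact hk
    refine h3.trans ?_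
    by_cases h4 : g'.h = 1
    · have h5 : g.h = 1 := by
        rw [h4, one_mul] at hk
        exact mul_eq_left.1 hk
      have h6 := h2 h5
      by_cases h7 : g.v = 0
      · have h8 := h6.1 h7
        rw [h7, act_zero, ← h8]
      · have h8 : g'.v ≠ 0 := fun h => h7 (h6.2 h)
        have h9 : act k g.v ≠ 0 := by
          intro h
          apply h7
          have : act k⁻¹ (act k g.v) = 0 := by rw [h, act_zero]
          rwa [← act_mul, inv_mul_cancel, act_one] at this
        obtain ⟨a, ha⟩ := act_trans _ _ h9 h8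
        rw [isConj_iff]
        refine ⟨⟨0, a⟩, ?_⟩
        rw [mul_inv_eq_iff_eq_mul]
        apply ext'
        · simp only [mul_v, act_zero, add_zero, zero_add, ha]
        · simp only [mul_h, h4, mul_one, one_mul]
    · obtain ⟨u, hu⟩ := act_surj g'.h h4 (g'.v - act k g.v)
      rw [isConj_iff]
      refine ⟨⟨u, 1⟩, ?_⟩
      rw [mul_inv_eq_iff_eq_mul]
      apply ext'
      · simp only [mul_v, act_one]
        exact sub_eq_sub_iff_add_eq_add.1 hu
      · simp only [mul_h, mul_one, one_mul]

end Gp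

end Pool.Agent.R507.AMZ
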