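import Pool.Agent.R507.AMZ.Chr

set_option autoImplicit false

namespace Pool.Agent.R507.AMZ
open Pool.Agent.W367.SN H Gp

/-- homomorphism to the group of order three -/
def ccHom : Gp →* Multiplicative (Fin 3) where
  toFun g := Multiplicative.ofAdd (cc g.h)
  map_one' := by
    have : cc (1 : H) = 0 := by decide +kernel
    rw [one_h, this]; rfl
  map_mul' a b := by
    rw [mul_h, cc_mul]; rfl

/-- the subgroup of index three -/
def N : Subgroup Gp := ccHom.ker

theorem mem_N (g : Gp) : g ∈ N ↔ cc g.h = 0 := by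
  rw [N, MonoidHom.mem_ker]
  exact Iff.rfl

open scoped commutatorElement in
theorem commutator_eq : commutator Gp = N := by
  apply le_antisymm
  · exact Abelianization.commutator_subset_ker ccHom
  · intro g hg
    rw [mem_N] at hg
    have h1 : (⟨g.v, 1⟩ : Gp) * ⟨0, g.h⟩ = g := by
      apply Gp.ext'
      · simp only [mul_v, act_zero, add_zero]
      · simp only [mul_h, one_mul]
    rw [← h1]
    apply mul_mem
    · have h2 : (⟨g.v, 1⟩ : Gp) = ⁅(⟨(3 * g.v.1, 3 * g.v.2), 1⟩ : Gp), (⟨0, ⟨1⟩⟩ : Gp)⁆ := by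
        rw [commutatorElement_def]
        have hm : ∀ w : V, w = (3 * w.1, 3 * w.2) + act (1 * ⟨1⟩)
            (-act (1 : H)⁻¹ (3 * w.1, 3 * w.2)) := by decide +kernel
        apply Gp.ext'
        · simp only [mul_v, mul_h, inv_v, inv_h, act_zero, add_zero, neg_zero]
          exact hm g.v
        · simp only [mul_h, inv_h]
          decide +kernel
      rw [h2]
      exact Subgroup.commutator_mem_commutator trivial trivial
    · obtain ⟨x, y, hxy⟩ := comm_q g.h hg
      have h2 : (⟨0, g.h⟩ : Gp) = ⁅(⟨0, x⟩ : Gp), (⟨0, y⟩ : Gp)⁆ := by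
        rw [commutatorElement_def]
        apply Gp.ext'
        · simp only [mul_v, inv_v, act_zero, add_zero, neg_zero]
        · simp only [mul_h, inv_h]; exact hxy
      rw [h2]
      exact Subgroup.commutator_mem_commutator trivial trivial

theorem card_N [Fintype N] : Fintype.card N = 200 := by
  rw [← Nat.card_eq_fintype_card, Nat.card_congr (Equiv.subtypeEquivRight (fun g => mem_N g)),
    Nat.card_eq_fintype_card, Fintype.card_subtype]
  decide +kernel

/-- orbit labels -/
def lab (v : V) : Fin 4 := if v = 0 then 0 else if v.1 = 0 ∨ v.2 = 0 then 1 else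
  if v.1 = v.2 ∨ v.1 = -v.2 then 2 else 3

theorem lab_act : ∀ a : H, cc a = 0 → ∀ v : V, lab (act a v) = lab v := by decide +kernel

theorem lab_trans : ∀ v v' : V, lab v = lab v' → ∃ a : H, cc a = 0 ∧ act a v = v' := by
  decide +kernel

theorem conj_N (k k' : N) (hk : (N.subtype k).h = 1) (hk' : (N.subtype k').h = 1) :
    IsConj k k' ↔ lab (N.subtype k).v = lab (N.subtype k').v := by
  constructor
  · intro h
    obtain ⟨c, hc⟩ := isConj_iff.1 h
    have h1 : c * k = k' * c := by rw [← hc]; group
    have h2 : (c : Gp) * (k : Gp) = (k' : Gp) * (c : Gp) := congrArg Subtype.val h1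
    have h3 : (c : Gp).v + act (c : Gp).h (k : Gp).v = (k' : Gp).v + act (k' : Gp).h (c : Gp).v :=
      congrArg Gp.v h2
    have h4 : (k' : Gp).h = 1 := hk'
    rw [h4, act_one, add_comm] at h3
    have h5 := add_right_cancel h3
    change lab (k : Gp).v = lab (k' : Gp).v
    rw [← h5, lab_act _ ((mem_N _).1 c.2)]
  · intro h
    obtain ⟨a, ha, hav⟩ := lab_trans _ _ h
    rw [isConj_iff]
    refine ⟨⟨⟨0, a⟩, (mem_N _).2 ha⟩, ?_⟩
    rw [mul_inv_eq_iff_eq_mul]
    apply Subtype.ext
    change (⟨0, a⟩ : Gp) * (k : Gp) = (k' : Gp) * ⟨0, a⟩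
    have hk1 : (k : Gp).h = 1 := hk
    have hk2 : (k' : Gp).h = 1 := hk'
    have hav' : act a (k : Gp).v = (k' : Gp).v := hav
    apply Gp.ext'
    · simp only [mul_v, act_zero, add_zero, zero_add, hav']
    · simp only [mul_h, hk1, hk2, mul_one, one_mul]

/-- the three characters of degree 8 of `N` -/
noncomputable def al (i : Fin 3) : N → ℂ :=
  fun k => if (N.subtype k).h = 1 then (th i.castSucc (N.subtype k).v : ℂ) else 0

theorem N_surj : ∀ v : V, ∃ k, N.subtype k = ⟨v, 1⟩ := by
  intro v
  refine ⟨⟨⟨v, 1⟩, (mem_N _).2 ?_⟩, rfl⟩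
  change cc (1 : H) = 0
  decide +kernel

theorem al_mem [Fintype N] (i : Fin 3) : al i ∈ IrrC N := by
  apply mono_mem N.subtype N.subtype_injective N_surj i.castSucc
  · intro k w hw
    exact O_act i _ ((mem_N _).1 k.2) w hw
  · rw [card_N]
    obtain ⟨h0, h1, h2, -⟩ := th_norm
    fin_cases i
    · exact_mod_cast h0
    · exact_mod_cast h1
    · exact_mod_cast h2

theorem al_one (i : Fin 3) : al i 1 = 8 := by
  have h : ∀ i : Fin 3, th i.castSucc 0 = 8 := by decide +kernel
  have h1 : al i 1 = (th i.castSucc 0 : ℂ) := by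
    rw [al, map_one, one_h, if_pos rfl, one_v]
  rw [h1, h]; norm_num

theorem al_inj : Function.Injective al := by
  have h : ∀ i j : Fin 3, (∀ v : V, th i.castSucc v = th j.castSucc v) → i = j := by
    decide +kernel
  intro i j hij
  apply h
  intro v
  obtain ⟨k, hk⟩ := N_surj v
  have h1 := congrFun hij k
  simp only [al, hk, if_true] at h1
  exact_mod_cast h1

theorem T_int : ∀ i j : Fin 3, (∑ v : V, ∑ v' : V, (if lab v = lab v' then (1 : ℤ) else 0) *
    (th i.castSucc v * th j.castSucc v')) = if i = j then 1152 else -448 := by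
  decide +kernel

theorem T_N [Fintype N] (i j : Fin 3) :
    ∑ k : N, ∑ k' : N, cI k k' *
      (al i k * (starRingEnd ℂ) (al j k')) = if i = j then 1152 else -448 := by
  have h1 : ∀ k k' : N, cI k k' *
      (al i k * (starRingEnd ℂ) (al j k')) =
      if (N.subtype k).h = 1 then (if (N.subtype k').h = 1 then
        ((if lab (N.subtype k).v = lab (N.subtype k').v then (1 : ℂ) else 0) *
          ((th i.castSucc (N.subtype k).v : ℂ) * (th j.castSucc (N.subtype k').v : ℂ))) else 0)
        else 0 := by
    intro k k'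
    by_cases hk : (N.subtype k).h = 1
    · by_cases hk' : (N.subtype k').h = 1
      · rw [if_pos hk, if_pos hk', al, al, if_pos hk, if_pos hk', map_intCast]
        by_cases hc : IsConj k k'
        · rw [cI_pos hc, if_pos ((conj_N k k' hk hk').1 hc)]
        · rw [cI_neg hc, if_neg (fun h => hc ((conj_N k k' hk hk').2 h))]
      · rw [if_pos hk, if_neg hk', al, al, if_neg hk', map_zero, mul_zero, mul_zero]
    · rw [if_neg hk, al, if_neg hk, zero_mul, mul_zero]
  simp only [h1]
  have h2 : ∀ k : N, (∑ k' : N, if (N.subtype k).h = 1 then (if (N.subtype k').h = 1 then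
        ((if lab (N.subtype k).v = lab (N.subtype k').v then (1 : ℂ) else 0) *
          ((th i.castSucc (N.subtype k).v : ℂ) * (th j.castSucc (N.subtype k').v : ℂ))) else 0)
        else 0) = if (N.subtype k).h = 1 then
          (∑ v', ((if lab (N.subtype k).v = lab v' then (1 : ℂ) else 0) *
          ((th i.castSucc (N.subtype k).v : ℂ) * (th j.castSucc v' : ℂ)))) else 0 := by
    intro k
    by_cases hk : (N.subtype k).h = 1
    · simp only [if_pos hk]
      exact sum_tr N.subtype N.subtype_injective N_surj (fun v' =>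
        ((if lab (N.subtype k).v = lab v' then (1 : ℂ) else 0) *
          ((th i.castSucc (N.subtype k).v : ℂ) * (th j.castSucc v' : ℂ))))
    · simp only [if_neg hk, Finset.sum_const_zero]
  rw [Finset.sum_congr rfl (fun k _ => h2 k)]
  rw [sum_tr N.subtype N.subtype_injective N_surj (fun v =>
    (∑ v', ((if lab v = lab v' then (1 : ℂ) else 0) *
          ((th i.castSucc v : ℂ) * (th j.castSucc v' : ℂ)))))]
  have h3 := congrArg (Int.cast (R := ℂ)) (T_int i j)
  push_cast at h3
  exact h3

theorem low : (9.83 : ℝ) ≤ AMZA N := by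
  classical
  have := Fintype.ofFinite N
  have h := le_AMZA (G := N) al al_mem al_inj
  refine le_trans ?_ h
  rw [card_N]
  simp only [T_N, al_one]
  simp only [Fin.sum_univ_three, Fin.isValue, Fin.reduceEq, if_true, if_false]
  norm_num

end Pool.Agent.R507.AMZ
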