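import Pool.Agent.R507.AMZ.Chr

set_option autoImplicit false

namespace Pool.Agent.R507.AMZ
open Pool.Agent.W367.SN H Gp

theorem lin_mem {Γ : Type} [Group Γ] [Fintype Γ] (f : Γ →* ℂ) : (fun g => f g) ∈ IrrC Γ := by
  classical
  let ρ : Γ →* Matrix (Fin 1) (Fin 1) ℂ :=
    { toFun := fun g => f g • 1
      map_one' := by simp
      map_mul' := fun a b => by simp [smul_smul, mul_comm] }
  have hρ : ∀ g, (ρ g).trace = f g := by
    intro g
    change (f g • (1 : Matrix (Fin 1) (Fin 1) ℂ)).trace = f g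
    simp
  have := mem_irr_of_matrix ρ (by
    simp only [hρ]
    have h1 : ∀ g, f g * f g⁻¹ = 1 := by
      intro g; rw [← map_mul, mul_inv_cancel, map_one]
    rw [Finset.sum_congr rfl (fun g _ => h1 g)]
    simp)
  simpa only [hρ] using this

/-- the class in `ZMod 3` -/
def c3 (g : Gp) : ZMod 3 := cc g.h

theorem c3_mul (g g' : Gp) : c3 (g * g') = c3 g + c3 g' := cc_mul g.h g'.h
theorem c3_one : c3 1 = 0 := by
  change cc (1 : H) = 0
  decide +kernel
theorem c3_inv (g : Gp) : c3 g⁻¹ = - c3 g := by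
  have h : c3 (g⁻¹ * g) = 0 := by rw [inv_mul_cancel, c3_one]
  rw [c3_mul] at h
  exact eq_neg_of_add_eq_zero_left h

noncomputable def Lh (a : ZMod 3) : Gp →* ℂ where
  toFun g := ω (a * c3 g)
  map_one' := by rw [c3_one, mul_zero, AddChar.map_zero_eq_one]
  map_mul' g g' := by rw [c3_mul, mul_add, AddChar.map_add_eq_mul]

noncomputable def L (a : ZMod 3) (g : Gp) : ℂ := ω (a * c3 g)

theorem L_mem (a : ZMod 3) : L a ∈ IrrC Gp := lin_mem (Lh a)

theorem L_inv (a : ZMod 3) (g : Gp) : L a g⁻¹ = (starRingEnd ℂ) (L a g) := by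
  rw [L, L, c3_inv, mul_neg, AddChar.map_neg_eq_conj]

theorem L_mul_inv (a : ZMod 3) (g : Gp) : L a g * L a g⁻¹ = 1 := by
  change Lh a g * Lh a g⁻¹ = 1
  rw [← map_mul, mul_inv_cancel, map_one]

theorem L_one (a : ZMod 3) : L a 1 = 1 := (Lh a).map_one

/-- the three dimensional representation -/
noncomputable def Rm : H →* Matrix (Fin 3) (Fin 3) ℂ where
  toFun a := Matrix.of fun i j => (ro a i j : ℂ)
  map_one' := by
    ext i j
    rw [Matrix.of_apply, ro_one, Matrix.one_apply]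
    split_ifs <;> simp
  map_mul' a b := by
    ext i j
    rw [Matrix.of_apply, ro_mul, Matrix.mul_apply, Fin.sum_univ_three]
    simp only [Matrix.of_apply]
    push_cast
    rfl

theorem Rm_trace (a : H) : (Rm a).trace = mt a := by
  rw [Matrix.trace_fin_three]
  change (ro a 0 0 : ℂ) + ro a 1 1 + ro a 2 2 = _
  rw [H.mt]; push_cast; rfl

noncomputable def M (g : Gp) : ℂ := mt g.h

theorem M_mem : M ∈ IrrC Gp := by
  have h := mem_irr_of_matrix (Rm.comp proj) (by
    have h1 : ∀ g : Gp, ((Rm.comp proj) g).trace * ((Rm.comp proj) g⁻¹).trace =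
        ((mt g.h * mt g.h : ℤ) : ℂ) := by
      intro g
      rw [MonoidHom.comp_apply, MonoidHom.comp_apply, Rm_trace, Rm_trace]
      change (mt g.h : ℂ) * (mt g.h⁻¹ : ℂ) = _
      rw [mt_inv]; push_cast; rfl
    rw [Finset.sum_congr rfl (fun g _ => h1 g), sum_Gp (fun _ a => ((mt a * mt a : ℤ) : ℂ)),
      Finset.sum_const, ← Int.cast_sum, sum_mt, card_Gp]
    simp
    norm_num)
  have h2 : (fun g => ((Rm.comp proj) g).trace) = M := by
    funext g
    rw [MonoidHom.comp_apply, Rm_trace]; rfl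
  rwa [h2] at h

/-- the two dimensional representation -/
noncomputable def Tm : H →* Matrix (Fin 2) (Fin 2) ℂ where
  toFun a := !![((qa a 0 : ℂ) + qa a 1 * Complex.I) / 2, ((qa a 2 : ℂ) + qa a 3 * Complex.I) / 2;
    (-(qa a 2 : ℂ) + qa a 3 * Complex.I) / 2, ((qa a 0 : ℂ) - qa a 1 * Complex.I) / 2]
  map_one' := by
    obtain ⟨h0, h1, h2, h3⟩ := qa_one
    rw [h0, h1, h2, h3, Matrix.one_fin_two]
    simp
  map_mul' a b := by
    obtain ⟨h0, h1, h2, h3⟩ := qa_mul a b
    have h0' := congrArg (Int.cast (R := ℂ)) h0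
    have h1' := congrArg (Int.cast (R := ℂ)) h1
    have h2' := congrArg (Int.cast (R := ℂ)) h2
    have h3' := congrArg (Int.cast (R := ℂ)) h3
    push_cast at h0' h1' h2' h3'
    have hI : Complex.I ^ 2 = -1 := Complex.I_sq
    rw [Matrix.mul_fin_two]
    congr 1
    ext i j
    fin_cases i <;> fin_cases j
    · simp
      linear_combination (1/4) * h0' + (1/4) * Complex.I * h1' +
        (1/4) * (-(qa a 1 : ℂ) * qa b 1 - qa a 3 * qa b 3) * hI
    · simp
      linear_combination (1/4) * h2' + (1/4) * Complex.I * h3' +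
        (1/4) * (-(qa a 1 : ℂ) * qa b 3 + qa a 3 * qa b 1) * hI
    · simp
      linear_combination -(1/4) * h2' + (1/4) * Complex.I * h3' +
        (1/4) * (-(qa a 3 : ℂ) * qa b 1 + qa a 1 * qa b 3) * hI
    · simp
      linear_combination (1/4) * h0' - (1/4) * Complex.I * h1' +
        (1/4) * (-(qa a 3 : ℂ) * qa b 3 - qa a 1 * qa b 1) * hI

theorem Tm_trace (a : H) : (Tm a).trace = tt a := by
  rw [Matrix.trace_fin_two]
  change ((qa a 0 : ℂ) + qa a 1 * Complex.I) / 2 + ((qa a 0 : ℂ) - qa a 1 * Complex.I) / 2 = _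
  rw [tt]; ring

noncomputable def tau (a : ZMod 3) (g : Gp) : ℂ := L a g * tt g.h

noncomputable def TL (a : ZMod 3) : Gp →* Matrix (Fin 2) (Fin 2) ℂ where
  toFun g := Lh a g • Tm g.h
  map_one' := by
    have : Tm (1 : Gp).h = 1 := Tm.map_one
    rw [map_one, this, one_smul]
  map_mul' g g' := by
    rw [map_mul, mul_h, map_mul, Matrix.smul_mul, Matrix.mul_smul, smul_smul]

theorem TL_trace (a : ZMod 3) (g : Gp) : (TL a g).trace = tau a g := by
  change (Lh a g • Tm g.h).trace = _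
  rw [Matrix.trace_smul, Tm_trace]; rfl

theorem tau_inv (a : ZMod 3) (g : Gp) : tau a g⁻¹ = (starRingEnd ℂ) (tau a g) := by
  rw [tau, tau, map_mul, ← L_inv, inv_h, tt_inv, map_intCast]

theorem tau_mem (a : ZMod 3) : tau a ∈ IrrC Gp := by
  have h := mem_irr_of_matrix (TL a) (by
    have h1 : ∀ g : Gp, (TL a g).trace * (TL a g⁻¹).trace =
        ((tt g.h * tt g.h : ℤ) : ℂ) := by
      intro g
      rw [TL_trace, TL_trace, tau, tau, inv_h, tt_inv]
      have := L_mul_inv a g
      push_cast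
      linear_combination (tt g.h : ℂ) * tt g.h * this
    rw [Finset.sum_congr rfl (fun g _ => h1 g), sum_Gp (fun _ a => ((tt a * tt a : ℤ) : ℂ)),
      Finset.sum_const, ← Int.cast_sum, sum_tt, card_Gp]
    simp
    norm_num)
  have h2 : (fun g => (TL a g).trace) = tau a := funext (TL_trace a)
  rwa [h2] at h

/-- the character of degree 24 -/
noncomputable def Th (g : Gp) : ℂ := if g.h = 1 then (th 3 g.v : ℂ) else 0

theorem Th_mem : Th ∈ IrrC Gp := by
  have h := mono_mem (MonoidHom.id Gp) Function.injective_id (fun v => ⟨⟨v, 1⟩, rfl⟩) 3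
    (fun k w hw => O_act3 _ w hw) (by
      rw [th_norm.2.2.2, card_Gp]; norm_num)
  exact h

theorem Th_inv (g : Gp) : Th g⁻¹ = Th g := by
  rw [Th, Th, inv_h, inv_v]
  by_cases h : g.h = 1
  · rw [if_pos h, if_pos (by rw [h, inv_one]), h, inv_one, act_one, th3, th3]
    simp only [neg_eq_zero]
  · rw [if_neg h, if_neg (by rwa [inv_eq_one])]

theorem M_inv (g : Gp) : M g⁻¹ = M g := by rw [M, M, inv_h, mt_inv]

theorem nA_L (a : ZMod 3) : nA (fun g : Gp => L a g⁻¹) = 600 * 1 := by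
  rw [nA_irr (L_mem a), card_Gp, L_one]; simp

theorem nA_tau (a : ZMod 3) : nA (fun g : Gp => tau a g⁻¹) = 600 * 2 := by
  rw [nA_irr (tau_mem a), card_Gp, tau, L_one, one_h, tt_one]; simp

theorem nA_M : nA M = 600 * 3 := by
  have h := nA_irr M_mem
  have h1 : (fun g => M g⁻¹) = M := funext M_inv
  rw [h1, card_Gp] at h
  rw [h, M, one_h, mt_one]; simp

theorem nA_Th : nA Th = 600 * 24 := by
  have h := nA_irr Th_mem
  have h1 : (fun g => Th g⁻¹) = Th := funext Th_inv
  rw [h1, card_Gp] at h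
  rw [h, Th, one_h, if_pos rfl, one_v, th3]; simp

theorem sum_L (x : ZMod 3) : ω (0 * x) + ω (1 * x) + ω (2 * x) = if x = 0 then 3 else 0 := by
  rw [← sum_ω x]
  exact (Fin.sum_univ_three (fun a : ZMod 3 => ω (a * x))).symm

noncomputable def E (g : Gp) : ℂ := if c3 g = 0 then 1 else 0

noncomputable def tE (g : Gp) : ℂ := tt g.h * E g

theorem E_eq : E = fun g => (1/3 : ℂ) * ((L 0 g⁻¹ + L 1 g⁻¹) + L 2 g⁻¹) := by
  funext g
  rw [L, L, L, sum_L, c3_inv, E]
  simp only [neg_eq_zero]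
  split_ifs <;> norm_num

theorem tE_eq : tE = fun g => (1/3 : ℂ) * ((tau 0 g⁻¹ + tau 1 g⁻¹) + tau 2 g⁻¹) := by
  funext g
  rw [tE, E_eq, tau, tau, tau, inv_h, tt_inv]
  ring

theorem nA_E : nA E ≤ 600 * 1 := by
  rw [E_eq, nA_smul]
  have h1 := nA_add (fun g : Gp => L 0 g⁻¹ + L 1 g⁻¹) (fun g => L 2 g⁻¹)
  have h2 := nA_add (fun g : Gp => L 0 g⁻¹) (fun g => L 1 g⁻¹)
  rw [nA_L] at h1
  rw [nA_L, nA_L] at h2
  have h3 : ‖(1/3 : ℂ)‖ = 1/3 := by norm_num
  rw [h3]
  linarith

theorem nA_tE : nA tE ≤ 600 * 2 := by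
  rw [tE_eq, nA_smul]
  have h1 := nA_add (fun g : Gp => tau 0 g⁻¹ + tau 1 g⁻¹) (fun g => tau 2 g⁻¹)
  have h2 := nA_add (fun g : Gp => tau 0 g⁻¹) (fun g => tau 1 g⁻¹)
  rw [nA_tau] at h1
  rw [nA_tau, nA_tau] at h2
  have h3 : ‖(1/3 : ℂ)‖ = 1/3 := by norm_num
  rw [h3]
  linarith

noncomputable def De (g : Gp) : ℂ := if g.h = 1 then 1 else 0

theorem De_eq : De = fun g => ((1/8 : ℂ) * E g + (1/8 : ℂ) * M g) + (1/4 : ℂ) * tE g := by
  funext g
  have h := congrArg (Int.cast (R := ℂ)) (delta g.h)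
  push_cast at h
  have h1 : E g = if cc g.h = 0 then 1 else 0 := rfl
  rw [tE, h1, M, De]
  linear_combination (1/24) * h

theorem nA_De : nA De ≤ 600 * 1 := by
  rw [De_eq]
  have h1 := nA_add (fun g : Gp => (1/8 : ℂ) * E g + (1/8 : ℂ) * M g) (fun g => (1/4 : ℂ) * tE g)
  have h2 := nA_add (fun g : Gp => (1/8 : ℂ) * E g) (fun g => (1/8 : ℂ) * M g)
  rw [nA_smul (1/4 : ℂ) tE] at h1
  rw [nA_smul (1/8 : ℂ) E, nA_smul (1/8 : ℂ) M, nA_M] at h2
  have h3 : ‖(1/8 : ℂ)‖ = 1/8 := by norm_num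
  have h4 : ‖(1/4 : ℂ)‖ = 1/4 := by norm_num
  rw [h3] at h2
  rw [h4] at h1
  have h5 := nA_E
  have h6 := nA_tE
  linarith

/-- index type of the decomposition -/
abbrev κ := ZMod 3 ⊕ ZMod 3 ⊕ Fin 9

noncomputable def cf : κ → ℂ := Sum.elim (fun _ => 1/6) (Sum.elim (fun _ => 1/6)
  ![3/32, -3/8, -5/32, -5/32, 3/32, -48/625, -23/625, -23/625, 2/625])
noncomputable def ff : κ → Gp → ℂ := Sum.elim (fun a g => L a g⁻¹) (Sum.elim
  (fun a g => tau a g⁻¹) ![E, tE, E, M, M, De, De, Th, Th])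
noncomputable def hh : κ → Gp → ℂ := Sum.elim (fun a g => L a g) (Sum.elim
  (fun a g => tau a g) ![E, tE, M, E, M, De, Th, De, Th])
noncomputable def rr : κ → ℝ := Sum.elim (fun _ => 1) (Sum.elim (fun _ => 2)
  ![1, 2, 1, 3, 3, 1, 1, 24, 24])
noncomputable def ss : κ → ℝ := Sum.elim (fun _ => 1) (Sum.elim (fun _ => 2)
  ![1, 2, 3, 1, 3, 1, 24, 1, 24])

theorem cj_one : ∀ b : H, cj 1 b = decide (b = 1) := by decide +kernel

theorem sumL (g g' : Gp) : L 0 g⁻¹ * L 0 g' + L 1 g⁻¹ * L 1 g' + L 2 g⁻¹ * L 2 g' =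
    if cc g.h = cc g'.h then 3 else 0 := by
  have h1 : ∀ a : ZMod 3, L a g⁻¹ * L a g' = ω (a * (c3 g' - c3 g)) := by
    intro a
    rw [L, L, c3_inv, ← AddChar.map_add_eq_mul]
    congr 1
    ring
  rw [h1, h1, h1, sum_L]
  have h2 : (c3 g' - c3 g = 0) ↔ (cc g.h = cc g'.h) := by
    rw [sub_eq_zero]
    exact eq_comm
  simp only [h2]

theorem cI_eq (g g' : Gp) : cI g g' = (if cj g.h g'.h then (1 : ℂ) else 0) +
    (-48/625 * (De g * De g') - 23/625 * (De g * Th g') - 23/625 * (Th g * De g') +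
      2/625 * (Th g * Th g')) := by
  by_cases hg : g.h = 1
  · by_cases hg' : g'.h = 1
    · have h1 : cj g.h g'.h = true := by rw [hg, cj_one, hg']; simp
      rw [De, De, Th, Th, if_pos hg, if_pos hg', if_pos hg, if_pos hg', th3, th3, if_pos h1]
      by_cases hv : g.v = 0
      · by_cases hv' : g'.v = 0
        · rw [cI_pos ((conj_iff g g').2 ⟨h1, fun _ => ⟨fun _ => hv', fun _ => hv⟩⟩),
            if_pos hv, if_pos hv']
          norm_num
        · rw [cI_neg (fun h => hv' ((((conj_iff g g').1 h).2 hg).1 hv)),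
            if_pos hv, if_neg hv']
          norm_num
      · by_cases hv' : g'.v = 0
        · rw [cI_neg (fun h => hv ((((conj_iff g g').1 h).2 hg).2 hv')),
            if_neg hv, if_pos hv']
          norm_num
        · rw [cI_pos ((conj_iff g g').2 ⟨h1, fun _ => ⟨fun h => absurd h hv,
            fun h => absurd h hv'⟩⟩), if_neg hv, if_neg hv']
          norm_num
    · have h1 : cj g.h g'.h = false := by rw [hg, cj_one]; simp [hg']
      rw [De, De, Th, Th, if_neg hg', if_neg hg', h1,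
        cI_neg (fun h => by rw [((conj_iff g g').1 h).1] at h1; exact absurd h1 (by simp))]
      simp
  · have hDe : De g = 0 := if_neg hg
    have hTh : Th g = 0 := if_neg hg
    rw [hDe, hTh]
    by_cases h1 : cj g.h g'.h = true
    · rw [cI_pos ((conj_iff g g').2 ⟨h1, fun h => absurd h hg⟩), if_pos h1]
      simp
    · rw [cI_neg (fun h => h1 ((conj_iff g g').1 h).1), if_neg h1]
      simp

theorem hD (g g' : Gp) : cI g g' = ∑ k, cf k * (ff k g * hh k g') := by
  rw [Fintype.sum_sum_type, Fintype.sum_sum_type]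
  have h1 : ∑ a : ZMod 3, cf (Sum.inl a) * (ff (Sum.inl a) g * hh (Sum.inl a) g') =
      (1/6) * (if cc g.h = cc g'.h then 3 else 0) := by
    rw [← sumL]
    rw [show (∑ a : ZMod 3, cf (Sum.inl a) * (ff (Sum.inl a) g * hh (Sum.inl a) g')) =
      cf (Sum.inl 0) * (ff (Sum.inl 0) g * hh (Sum.inl 0) g') +
      cf (Sum.inl 1) * (ff (Sum.inl 1) g * hh (Sum.inl 1) g') +
      cf (Sum.inl 2) * (ff (Sum.inl 2) g * hh (Sum.inl 2) g') from
        Fin.sum_univ_three (fun a : ZMod 3 =>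
          cf (Sum.inl a) * (ff (Sum.inl a) g * hh (Sum.inl a) g'))]
    simp only [cf, ff, hh, Sum.elim_inl]
    ring
  have h2 : ∑ a : ZMod 3, cf (Sum.inr (Sum.inl a)) * (ff (Sum.inr (Sum.inl a)) g *
      hh (Sum.inr (Sum.inl a)) g') =
      (1/6) * (H.tt g.h * H.tt g'.h * (if cc g.h = cc g'.h then 3 else 0)) := by
    rw [← sumL]
    rw [show (∑ a : ZMod 3, cf (Sum.inr (Sum.inl a)) * (ff (Sum.inr (Sum.inl a)) g *
      hh (Sum.inr (Sum.inl a)) g')) =
      cf (Sum.inr (Sum.inl 0)) * (ff (Sum.inr (Sum.inl 0)) g * hh (Sum.inr (Sum.inl 0)) g') +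
      cf (Sum.inr (Sum.inl 1)) * (ff (Sum.inr (Sum.inl 1)) g * hh (Sum.inr (Sum.inl 1)) g') +
      cf (Sum.inr (Sum.inl 2)) * (ff (Sum.inr (Sum.inl 2)) g * hh (Sum.inr (Sum.inl 2)) g') from
        Fin.sum_univ_three (fun a : ZMod 3 => cf (Sum.inr (Sum.inl a)) *
          (ff (Sum.inr (Sum.inl a)) g * hh (Sum.inr (Sum.inl a)) g'))]
    simp only [cf, ff, hh, Sum.elim_inl, Sum.elim_inr, tau, inv_h, tt_inv]
    ring
  have h3 : ∑ j : Fin 9, cf (Sum.inr (Sum.inr j)) * (ff (Sum.inr (Sum.inr j)) g *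
      hh (Sum.inr (Sum.inr j)) g') = 3/32 * (E g * E g') - 3/8 * (tE g * tE g') -
      5/32 * (E g * M g') - 5/32 * (M g * E g') + 3/32 * (M g * M g') +
      (-48/625 * (De g * De g') - 23/625 * (De g * Th g') - 23/625 * (Th g * De g') +
      2/625 * (Th g * Th g')) := by
    simp only [cf, ff, hh, Sum.elim_inr]
    simp [Fin.sum_univ_succ]
    ring
  rw [h1, h2, h3, cI_eq]
  have h := congrArg (Int.cast (R := ℂ)) (key g.h g'.h)
  push_cast at h
  have hE : ∀ g : Gp, E g = if cc g.h = 0 then 1 else 0 := fun _ => rfl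
  have hc : (if cc g.h = cc g'.h then (3 : ℂ) else 0) =
      3 * (if cc g.h = cc g'.h then 1 else 0) := by split_ifs <;> simp
  rw [tE, tE, hE, hE, M, M, hc]
  linear_combination (1/32) * h

theorem up : AMZA Gp ≤ (9.57 : ℝ) := by
  have hr : ∀ k, nA (ff k) ≤ Fintype.card Gp * rr k := by
    rw [card_Gp]
    rintro (a | a | j)
    · exact (nA_L a).le.trans (by simp [rr])
    · exact (nA_tau a).le.trans (by simp [rr])
    · fin_cases j
      · exact nA_E.trans (by simp [rr])
      · exact nA_tE.trans (by simp [rr])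
      · exact nA_E.trans (by simp [rr])
      · exact nA_M.le.trans (by simp [rr])
      · exact nA_M.le.trans (by simp [rr])
      · exact nA_De.trans (by simp [rr])
      · exact nA_De.trans (by simp [rr])
      · exact nA_Th.le.trans (by simp [rr])
      · exact nA_Th.le.trans (by simp [rr])
  have cE : (fun g => (starRingEnd ℂ) (E g)) = E := by
    funext g; rw [E]; split_ifs <;> simp
  have cM : (fun g => (starRingEnd ℂ) (M g)) = M := by
    funext g; rw [M, map_intCast]
  have ctE : (fun g => (starRingEnd ℂ) (tE g)) = tE := by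
    funext g
    have : (starRingEnd ℂ) (E g) = E g := congrFun cE g
    rw [tE, map_mul, this, map_intCast]
  have cD : (fun g => (starRingEnd ℂ) (De g)) = De := by
    funext g; rw [De]; split_ifs <;> simp
  have cT : (fun g => (starRingEnd ℂ) (Th g)) = Th := by
    funext g; rw [Th]; split_ifs
    · rw [map_intCast]
    · simp
  have hs : ∀ k, nA (fun g => (starRingEnd ℂ) (hh k g)) ≤ Fintype.card Gp * ss k := by
    rw [card_Gp]
    rintro (a | a | j)
    · have h : (fun g => (starRingEnd ℂ) (hh (Sum.inl a) g)) = fun g => L a g⁻¹ := by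
        funext g; exact (L_inv a g).symm
      rw [h]
      exact (nA_L a).le.trans (by simp [ss])
    · have h : (fun g => (starRingEnd ℂ) (hh (Sum.inr (Sum.inl a)) g)) = fun g => tau a g⁻¹ := by
        funext g; exact (tau_inv a g).symm
      rw [h]
      exact (nA_tau a).le.trans (by simp [ss])
    · fin_cases j
      · exact (congrArg nA cE).le.trans (nA_E.trans (by simp [ss]))
      · exact (congrArg nA ctE).le.trans (nA_tE.trans (by simp [ss]))
      · exact (congrArg nA cM).le.trans (nA_M.le.trans (by simp [ss]))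
      · exact (congrArg nA cE).le.trans (nA_E.trans (by simp [ss]))
      · exact (congrArg nA cM).le.trans (nA_M.le.trans (by simp [ss]))
      · exact (congrArg nA cD).le.trans (nA_De.trans (by simp [ss]))
      · exact (congrArg nA cT).le.trans (nA_Th.le.trans (by simp [ss]))
      · exact (congrArg nA cD).le.trans (nA_De.trans (by simp [ss]))
      · exact (congrArg nA cT).le.trans (nA_Th.le.trans (by simp [ss]))
  refine (AMZA_le cf ff hh rr ss hD hr hs).trans ?_
  rw [Fintype.sum_sum_type, Fintype.sum_sum_type]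
  simp only [cf, rr, ss, Sum.elim_inl, Sum.elim_inr, Finset.sum_const, Finset.card_univ, ZMod.card]
  simp [Fin.sum_univ_succ]
  norm_num

end Pool.Agent.R507.AMZ
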